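import Mathlib

/-!
Sign vectors of an `r`-dimensional subspace `V` of `ℝ^{2r}` all of whose Plücker coordinates are
non-zero: if `r ≥ 3`, some sign vector is realised by `V` together with all but at most one of its
single flips.
-/

set_option autoImplicit false

namespace Pool.Agent.H97.Mcm

open Finset

variable {ι : Type*} [Fintype ι] [DecidableEq ι]

/-- `V` is uniform of rank `r`: every `r` coordinates are a coordinate system of `V`. -/
structure Unif (r : ℕ) (V : Submodule ℝ (ι → ℝ)) : Prop where
  ex : ∀ K : Finset ι, K.card = r → ∀ t : ι → ℝ, ∃ f ∈ V, ∀ i ∈ K, f i = t i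
  uq : ∀ K : Finset ι, K.card = r → ∀ f ∈ V, (∀ i ∈ K, f i = 0) → f = 0

/-- The sign vector `s` is realised by `V`. -/
def Rls (V : Submodule ℝ (ι → ℝ)) (s : ι → ℝ) : Prop := ∃ f ∈ V, ∀ i, 0 < s i * f i

/-- The sign vector with the sign at `m` flipped. -/
def flp (s : ι → ℝ) (m : ι) : ι → ℝ := fun i => if i = m then - s i else s i

omit [Fintype ι] in
@[simp] theorem flp_self (s : ι → ℝ) (m : ι) : flp s m m = - s m := by simp [flp]

omit [Fintype ι] in
theorem flp_ne (s : ι → ℝ) {m i : ι} (h : i ≠ m) : flp s m i = s i := by simp [flp, h]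

omit [DecidableEq ι] in
/-- Perturbation lemma. -/
theorem perturb {V : Submodule ℝ (ι → ℝ)} {s : ι → ℝ} {f w : ι → ℝ} (hf : f ∈ V) (hw : w ∈ V)
    (h : ∀ i, 0 < s i * f i ∨ (f i = 0 ∧ 0 < s i * w i)) : Rls V s := by
  have key : ∀ i, ∀ᶠ ε in nhdsWithin (0 : ℝ) (Set.Ioi 0), 0 < s i * (f i + ε * w i) := by
    intro i
    rcases h i with h | ⟨h0, h1⟩
    · have hc : ContinuousAt (fun ε : ℝ => s i * (f i + ε * w i)) 0 := by
        fun_prop
      have : ∀ᶠ ε in nhds (0 : ℝ), 0 < s i * (f i + ε * w i) := by
        apply hc.eventually_const_lt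
        simpa using h
      exact this.filter_mono nhdsWithin_le_nhds
    · filter_upwards [self_mem_nhdsWithin] with ε hε
      rw [h0, zero_add]
      have : s i * (ε * w i) = ε * (s i * w i) := by ring
      rw [this]
      exact mul_pos hε h1
  obtain ⟨ε, hε⟩ := (Filter.eventually_all.2 key).exists
  exact ⟨f + ε • w, V.add_mem hf (V.smul_mem _ hw), fun i => by simpa using hε i⟩

/-- Expansion of a vector of `V` in a basis which is diagonal on `K`. -/
theorem Unif.expand {r : ℕ} {V : Submodule ℝ (ι → ℝ)} (hV : Unif r V) {K : Finset ι}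
    (hK : K.card = r) {e : ι → ι → ℝ} (he : ∀ k ∈ K, e k ∈ V)
    (he1 : ∀ k ∈ K, ∀ j ∈ K, j ≠ k → e k j = 0) (he2 : ∀ k ∈ K, e k k ≠ 0)
    {f : ι → ℝ} (hf : f ∈ V) (i : ι) : f i = ∑ k ∈ K, f k / e k k * e k i := by
  have h0 : f - ∑ k ∈ K, (f k / e k k) • e k = 0 := by
    refine hV.uq K hK _ (V.sub_mem hf (V.sum_mem fun k hk => V.smul_mem _ (he k hk))) ?_
    intro j hj
    simp only [Pi.sub_apply, Finset.sum_apply, Pi.smul_apply, smul_eq_mul]
    rw [Finset.sum_eq_single j]
    · have := he2 j hj
      field_simp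
      ring
    · intro k hk hkj
      rw [he1 k hk j hj hkj.symm, mul_zero]
    · intro h; exact absurd hj h
  have := congrFun h0 i
  simp only [Pi.sub_apply, Finset.sum_apply, Pi.smul_apply, smul_eq_mul, Pi.zero_apply] at this
  linarith

/-- A vector of `V` which vanishes at `r - 1` places and is not zero vanishes nowhere else. -/
theorem Unif.ne_zero {r : ℕ} {V : Submodule ℝ (ι → ℝ)} (hV : Unif r V) {G : Finset ι}
    (hG : G.card + 1 = r) {f : ι → ℝ} (hf : f ∈ V) (h0 : ∀ i ∈ G, f i = 0) (hne : f ≠ 0)
    {l : ι} (hl : l ∉ G) : f l ≠ 0 := by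
  intro h
  apply hne
  refine hV.uq (insert l G) (by rw [Finset.card_insert_of_notMem hl]; exact hG) f hf ?_
  intro i hi
  rcases Finset.mem_insert.1 hi with rfl | hi
  · exact h
  · exact h0 i hi

/-- The closed cone spanned by the `u k`, `k ∈ K`, is a simplicial cell: the `u k` form a basis
which is diagonal on `K`, with all values off the diagonal zero on `K` and positive outside. -/
structure Chart (r : ℕ) (V : Submodule ℝ (ι → ℝ)) (K : Finset ι) (u : ι → ι → ℝ) : Prop where
  card : K.card = r
  mem : ∀ k ∈ K, u k ∈ V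
  zero : ∀ k ∈ K, ∀ j ∈ K, j ≠ k → u k j = 0
  pos : ∀ k ∈ K, 0 < u k k
  out : ∀ k ∈ K, ∀ l, l ∉ K → 0 < u k l

/-- The basis which is diagonal on the complement of `K`. -/
structure Dual (V : Submodule ℝ (ι → ℝ)) (K : Finset ι) (g : ι → ι → ℝ) : Prop where
  mem : ∀ l, l ∉ K → g l ∈ V
  one : ∀ l, l ∉ K → g l l = 1
  zero : ∀ l, l ∉ K → ∀ j, j ∉ K → j ≠ l → g l j = 0

theorem exists_dual {r : ℕ} {V : Submodule ℝ (ι → ℝ)} (hV : Unif r V) {K : Finset ι}
    (hL : Kᶜ.card = r) : ∃ g : ι → ι → ℝ, Dual V K g := by
  have h : ∀ l : ι, ∃ f ∈ V, ∀ i ∈ Kᶜ, f i = if i = l then 1 else 0 := fun l =>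
    hV.ex Kᶜ hL fun i => if i = l then 1 else 0
  choose g hg hg' using h
  refine ⟨g, fun l _ => hg l, fun l hl => ?_, fun l _ j hj hjl => ?_⟩
  · rw [hg' l l (by simpa using hl), if_pos rfl]
  · rw [hg' l j (by simpa using hj), if_neg hjl]

theorem Dual.ne {r : ℕ} {V : Submodule ℝ (ι → ℝ)} (hV : Unif r V) {K : Finset ι}
    (hL : Kᶜ.card = r) {g : ι → ι → ℝ} (hg : Dual V K g) {l k : ι} (hl : l ∉ K) (hk : k ∈ K) :
    g l k ≠ 0 := by
  have hr : 0 < r := by
    rw [← hL]
    exact Finset.card_pos.2 ⟨l, by simpa using hl⟩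
  refine hV.ne_zero (G := Kᶜ.erase l) ?_ (hg.mem l hl) ?_ ?_ ?_
  · rw [Finset.card_erase_of_mem (by simpa using hl), hL]
    omega
  · intro i hi
    rw [Finset.mem_erase, Finset.mem_compl] at hi
    exact hg.zero l hl i hi.2 hi.1
  · intro h
    have := congrFun h l
    rw [hg.one l hl] at this
    exact one_ne_zero this
  · simp [hk]

/-- There is a sign vector realised together with all its flips except possibly the one at `b`. -/
def Near (V : Submodule ℝ (ι → ℝ)) : Prop :=
  ∃ (b : ι) (s : ι → ℝ), Rls V s ∧ ∀ m, m ≠ b → Rls V (flp s m)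

/-- Case A: some `g l` is positive at two elements of `K`. -/
theorem caseA {r : ℕ} {V : Submodule ℝ (ι → ℝ)} (hV : Unif r V) {K : Finset ι}
    (hL : Kᶜ.card = r) {u g : ι → ι → ℝ} (hu : Chart r V K u) (hg : Dual V K g)
    {l x a : ι} (hl : l ∉ K) (hx : x ∈ K) (ha : a ∈ K) (hxa : x ≠ a)
    (hgx : 0 < g l x) (hga : 0 < g l a) : Near V := by
  classical
  let s : ι → ℝ := fun i => if i ∈ K then g l i else 1
  have hsK : ∀ i ∈ K, s i = g l i := fun i hi => by simp [s, hi]
  have hsL : ∀ i, i ∉ K → s i = 1 := fun i hi => by simp [s, hi]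
  have hgK : ∀ i ∈ K, g l i ≠ 0 := fun i hi => hg.ne hV hL hl hi
  have hlx : l ≠ x := fun h => hl (h ▸ hx)
  have hla : l ≠ a := fun h => hl (h ▸ ha)
  -- values of `u x + u a`
  have hfx : (u x + u a) x = u x x := by
    simp [hu.zero a ha x hx hxa]
  have hfa : (u x + u a) a = u a a := by
    simp [hu.zero x hx a ha hxa.symm]
  have hf0 : ∀ i ∈ K, i ≠ x → i ≠ a → (u x + u a) i = 0 := by
    intro i hi h1 h2
    simp [hu.zero a ha i hi h2, hu.zero x hx i hi h1]
  have hfL : ∀ i, i ∉ K → 0 < (u x + u a) i := by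
    intro i hi
    have := hu.out x hx i hi
    have := hu.out a ha i hi
    simp only [Pi.add_apply]
    linarith
  have hfV : u x + u a ∈ V := V.add_mem (hu.mem x hx) (hu.mem a ha)
  -- a flip at `x` or `a`
  have flipxa : ∀ x ∈ K, ∀ a ∈ K, x ≠ a → 0 < g l x → 0 < g l a → Rls V (flp s x) := by
    intro x hx a ha hxa hgx hga
    refine perturb (f := u a) (w := g l - (2 * g l x / u x x) • u x) (hu.mem a ha)
      (V.sub_mem (hg.mem l hl) (V.smul_mem _ (hu.mem x hx))) ?_
    intro i
    by_cases hi : i ∈ K
    · by_cases hix : i = x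
      · right
        subst hix
        refine ⟨hu.zero a ha i hx hxa, ?_⟩
        have h1 := hu.pos i hx
        have : (g l - (2 * g l i / u i i) • u i) i = - g l i := by
          simp only [Pi.sub_apply, Pi.smul_apply, smul_eq_mul]
          field_simp
          ring
        rw [this, flp_self, hsK i hx, neg_mul_neg]
        exact mul_pos hgx hgx
      · by_cases hia : i = a
        · left
          subst hia
          rw [flp_ne _ hix, hsK i ha]
          exact mul_pos hga (hu.pos i ha)
        · right
          refine ⟨hu.zero a ha i hi hia, ?_⟩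
          rw [flp_ne _ hix, hsK i hi]
          have : (g l - (2 * g l x / u x x) • u x) i = g l i := by
            simp [hu.zero x hx i hi hix]
          rw [this]
          exact mul_self_pos.2 (hgK i hi)
    · left
      have hix : i ≠ x := fun h => hi (h ▸ hx)
      rw [flp_ne _ hix, hsL i hi, one_mul]
      exact hu.out a ha i hi
  refine ⟨l, s, ?_, ?_⟩
  · refine perturb hfV (hg.mem l hl) ?_
    intro i
    by_cases hi : i ∈ K
    · by_cases hix : i = x
      · left
        subst hix
        rw [hfx, hsK i hx]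
        exact mul_pos hgx (hu.pos i hx)
      · by_cases hia : i = a
        · left
          subst hia
          rw [hfa, hsK i ha]
          exact mul_pos hga (hu.pos i ha)
        · right
          refine ⟨hf0 i hi hix hia, ?_⟩
          rw [hsK i hi]
          exact mul_self_pos.2 (hgK i hi)
    · left
      rw [hsL i hi, one_mul]
      exact hfL i hi
  · intro m hml
    by_cases hm : m ∈ K
    · by_cases hmx : m = x
      · rw [hmx]
        exact flipxa x hx a ha hxa hgx hga
      · by_cases hma : m = a
        · rw [hma]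
          exact flipxa a ha x hx hxa.symm hga hgx
        · refine perturb (f := u x + u a) (w := g l - (2 * g l m / u m m) • u m) hfV
            (V.sub_mem (hg.mem l hl) (V.smul_mem _ (hu.mem m hm))) ?_
          intro i
          by_cases hi : i ∈ K
          · by_cases hix : i = x
            · left
              subst hix
              rw [hfx, flp_ne _ (Ne.symm hmx), hsK i hx]
              exact mul_pos hgx (hu.pos i hx)
            · by_cases hia : i = a
              · left
                subst hia
                rw [hfa, flp_ne _ (Ne.symm hma), hsK i ha]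
                exact mul_pos hga (hu.pos i ha)
              · right
                refine ⟨hf0 i hi hix hia, ?_⟩
                by_cases him : i = m
                · subst him
                  have h1 := hu.pos i hi
                  have : (g l - (2 * g l i / u i i) • u i) i = - g l i := by
                    simp only [Pi.sub_apply, Pi.smul_apply, smul_eq_mul]
                    field_simp
                    ring
                  rw [this, flp_self, hsK i hi, neg_mul_neg]
                  exact mul_self_pos.2 (hgK i hi)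
                · have : (g l - (2 * g l m / u m m) • u m) i = g l i := by
                    simp [hu.zero m hm i hi him]
                  rw [this, flp_ne _ him, hsK i hi]
                  exact mul_self_pos.2 (hgK i hi)
          · left
            have him : i ≠ m := fun h => hi (h ▸ hm)
            rw [flp_ne _ him, hsL i hi, one_mul]
            exact hfL i hi
    · refine perturb (f := g l) (w := (u x + u a) - (2 * (u x + u a) m) • g m) (hg.mem l hl)
        (V.sub_mem hfV (V.smul_mem _ (hg.mem m hm))) ?_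
      intro i
      by_cases hi : i ∈ K
      · left
        have him : i ≠ m := fun h => hm (h ▸ hi)
        rw [flp_ne _ him, hsK i hi]
        exact mul_self_pos.2 (hgK i hi)
      · by_cases hil : i = l
        · left
          subst hil
          rw [flp_ne _ (Ne.symm hml), hsL i hi, hg.one i hi]
          norm_num
        · right
          refine ⟨hg.zero l hl i hi hil, ?_⟩
          by_cases him : i = m
          · subst him
            have : ((u x + u a) - (2 * (u x + u a) i) • g i) i = - (u x + u a) i := by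
              rw [Pi.sub_apply, Pi.smul_apply, smul_eq_mul, hg.one i hi]
              ring
            rw [this, flp_self, hsL i hi]
            have := hfL i hi
            linarith
          · have : ((u x + u a) - (2 * (u x + u a) m) • g m) i = (u x + u a) i := by
              rw [Pi.sub_apply, Pi.smul_apply, smul_eq_mul, hg.zero m hm i hi him]
              ring
            rw [this, flp_ne _ him, hsL i hi, one_mul]
            exact hfL i hi

/-- Case B: every `g l` is positive at at most one element of `K`. -/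
theorem caseB {r : ℕ} (hr : 3 ≤ r) {V : Submodule ℝ (ι → ℝ)} (hV : Unif r V) {K : Finset ι}
    (hL : Kᶜ.card = r) {u g : ι → ι → ℝ} (hu : Chart r V K u) (hg : Dual V K g)
    (hB : ∀ l, l ∉ K → ∀ x ∈ K, ∀ a ∈ K, x ≠ a → 0 < g l x → ¬ 0 < g l a) : Near V := by
  classical
  have hgK : ∀ l, l ∉ K → ∀ k ∈ K, g l k ≠ 0 := fun l hl k hk => hg.ne hV hL hl hk
  -- every `g l` has a positive value on `K`
  have hp : ∀ l, ∃ k, l ∉ K → k ∈ K ∧ 0 < g l k := by
    intro l
    by_cases hl : l ∈ K
    · exact ⟨l, fun h => absurd hl h⟩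
    · by_contra hcon
      push Not at hcon
      have h1 := hV.expand hu.card hu.mem hu.zero (fun k hk => (hu.pos k hk).ne') (hg.mem l hl) l
      rw [hg.one l hl] at h1
      have h2 : ∑ k ∈ K, g l k / u k k * u k l ≤ 0 := by
        refine Finset.sum_nonpos fun k hk => ?_
        refine mul_nonpos_of_nonpos_of_nonneg ?_ (hu.out k hk l hl).le
        exact div_nonpos_of_nonpos_of_nonneg ((hcon k).2 hk) (hu.pos k hk).le
      linarith
  choose p hp using hp
  -- every element of `K` is hit
  have hsurj : ∀ k ∈ K, ∃ l, l ∉ K ∧ p l = k := by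
    intro k hk
    have h1 := hV.expand (K := Kᶜ) (e := g) hL (fun l hl => hg.mem l (by simpa using hl))
      (fun l hl j hj hjl => hg.zero l (by simpa using hl) j (by simpa using hj) hjl)
      (fun l hl => by rw [hg.one l (by simpa using hl)]; exact one_ne_zero) (hu.mem k hk) k
    by_contra hcon
    push Not at hcon
    have h2 : ∑ l ∈ Kᶜ, u k l / g l l * g l k ≤ 0 := by
      refine Finset.sum_nonpos fun l hl => ?_
      have hl' : l ∉ K := by simpa using hl
      rw [hg.one l hl', div_one]
      refine mul_nonpos_of_nonneg_of_nonpos (hu.out k hk l hl').le ?_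
      have h3 := hp l hl'
      exact not_lt.1 (hB l hl' (p l) h3.1 k hk (hcon l hl') h3.2)
    have := hu.pos k hk
    linarith
  have hinj : ∀ l, l ∉ K → ∀ l', l' ∉ K → p l = p l' → l = l' := by
    have hmaps : Set.MapsTo p (Kᶜ : Finset ι) (K : Finset ι) := by
      intro l hl
      exact (hp l (by simpa using hl)).1
    have hs : Set.SurjOn p (Kᶜ : Finset ι) (K : Finset ι) := by
      intro k hk
      obtain ⟨l, hl, hl'⟩ := hsurj k hk
      exact ⟨l, by simpa using hl, hl'⟩
    have hi := Finset.injOn_of_surjOn_of_card_le p hmaps hs (by rw [hL, hu.card])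
    intro l hl l' hl' h
    exact hi (by simpa using hl) (by simpa using hl') h
  have hneg : ∀ l, l ∉ K → ∀ k ∈ K, k ≠ p l → g l k < 0 := by
    intro l hl k hk hkp
    have h3 := hp l hl
    have h4 := hB l hl (p l) h3.1 k hk hkp.symm h3.2
    exact lt_of_le_of_ne (not_lt.1 h4) (hgK l hl k hk)
  -- the cell
  obtain ⟨l₀, hl₀⟩ : ∃ l, l ∉ K := by
    have : (Kᶜ).Nonempty := Finset.card_pos.1 (by omega)
    obtain ⟨l, hl⟩ := this
    exact ⟨l, by simpa using hl⟩
  have hp₀ := hp l₀ hl₀
  have hlp : l₀ ≠ p l₀ := fun h => hl₀ (h ▸ hp₀.1)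
  let s : ι → ℝ := fun i => if i = l₀ ∨ i = p l₀ then -1 else 1
  have hs1 : s l₀ = -1 := by simp [s]
  have hs2 : s (p l₀) = -1 := by simp [s]
  have hs3 : ∀ i, i ≠ l₀ → i ≠ p l₀ → s i = 1 := fun i h1 h2 => by simp [s, h1, h2]
  -- the vector `∑ g l`
  let w : ι → ℝ := ∑ l ∈ Kᶜ.erase l₀, g l
  have hwV : w ∈ V := by
    refine V.sum_mem fun l hl => hg.mem l ?_
    simp only [Finset.mem_erase, Finset.mem_compl] at hl
    exact hl.2
  have hw : ∀ i, i ∉ K → i ≠ l₀ → w i = 1 := by
    intro i hi hi0
    simp only [w, Finset.sum_apply]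
    rw [Finset.sum_eq_single i]
    · exact hg.one i hi
    · intro l hl hli
      simp only [Finset.mem_erase, Finset.mem_compl] at hl
      exact hg.zero l hl.2 i hi (Ne.symm hli)
    · intro h
      exact absurd (by simp [hi, hi0]) h
  refine ⟨p l₀, s, ?_, ?_⟩
  · refine perturb (f := - g l₀) (w := w) (V.neg_mem (hg.mem l₀ hl₀)) hwV ?_
    intro i
    by_cases hi : i ∈ K
    · left
      by_cases hip : i = p l₀
      · rw [hip, hs2, Pi.neg_apply]
        linarith [hp₀.2]
      · rw [hs3 i (fun h => hl₀ (h ▸ hi)) hip, Pi.neg_apply]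
        linarith [hneg l₀ hl₀ i hi hip]
    · by_cases hil : i = l₀
      · left
        rw [hil, hs1, Pi.neg_apply, hg.one l₀ hl₀]
        norm_num
      · right
        rw [Pi.neg_apply, hg.zero l₀ hl₀ i hi hil, hw i hi hil,
          hs3 i hil (fun h => hi (h ▸ hp₀.1))]
        norm_num
  · intro m hm
    by_cases hmK : m ∈ K
    · -- a flip in `K`
      obtain ⟨l₁, hl₁, hpl₁⟩ := hsurj m hmK
      have hl01 : l₀ ≠ l₁ := by
        rintro rfl
        exact hm hpl₁.symm
      have hP : ((K.erase (p l₀)).erase m).Nonempty := by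
        rw [← Finset.card_pos, Finset.card_erase_of_mem (Finset.mem_erase.2 ⟨hm, hmK⟩),
          Finset.card_erase_of_mem hp₀.1, hu.card]
        omega
      let h : ι → ℝ := ∑ k ∈ (K.erase (p l₀)).erase m, u k
      have hhV : h ∈ V := by
        refine V.sum_mem fun k hk => hu.mem k ?_
        simp only [Finset.mem_erase] at hk
        exact hk.2.2
      have hhL : ∀ i, i ∉ K → 0 < h i := by
        intro i hi
        simp only [h, Finset.sum_apply]
        refine Finset.sum_pos (fun k hk => ?_) hP
        simp only [Finset.mem_erase] at hk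
        exact hu.out k hk.2.2 i hi
      have hhK : ∀ i ∈ K, i ≠ p l₀ → i ≠ m → 0 < h i := by
        intro i hi h1 h2
        simp only [h, Finset.sum_apply]
        rw [Finset.sum_eq_single i]
        · exact hu.pos i hi
        · intro k hk hki
          simp only [Finset.mem_erase] at hk
          exact hu.zero k hk.2.2 i hi (Ne.symm hki)
        · intro h'
          exact absurd (by simp [h1, h2, hi]) h'
      let f : ι → ℝ := h - (h l₀) • g l₀ - (h l₁) • g l₁
      have hfV : f ∈ V := V.sub_mem (V.sub_mem hhV (V.smul_mem _ (hg.mem l₀ hl₀)))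
        (V.smul_mem _ (hg.mem l₁ hl₁))
      have hf : ∀ i, f i = h i - h l₀ * g l₀ i - h l₁ * g l₁ i := fun i => by simp [f]
      have hf0 : f l₀ = 0 := by
        rw [hf, hg.one l₀ hl₀, hg.zero l₁ hl₁ l₀ hl₀ hl01]
        ring
      have hf1 : f l₁ = 0 := by
        rw [hf, hg.one l₁ hl₁, hg.zero l₀ hl₀ l₁ hl₁ hl01.symm]
        ring
      have hfL : ∀ i, i ∉ K → i ≠ l₀ → i ≠ l₁ → 0 < f i := by
        intro i hi h0 h1
        rw [hf, hg.zero l₀ hl₀ i hi h0, hg.zero l₁ hl₁ i hi h1]
        have := hhL i hi
        linarith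
      have hfK : ∀ i ∈ K, i ≠ p l₀ → i ≠ m → 0 < f i := by
        intro i hi h0 h1
        rw [hf]
        have e1 := hhK i hi h0 h1
        have e2 := mul_neg_of_pos_of_neg (hhL l₀ hl₀) (hneg l₀ hl₀ i hi h0)
        have e3 := mul_neg_of_pos_of_neg (hhL l₁ hl₁) (hneg l₁ hl₁ i hi (by rw [hpl₁]; exact h1))
        linarith
      have hL' : ((Kᶜ.erase l₀).erase l₁).Nonempty := by
        rw [← Finset.card_pos, Finset.card_erase_of_mem, Finset.card_erase_of_mem, hL]
        · omega
        · simpa using hl₀
        · simp [hl01.symm, hl₁]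
      have hfneg : ∀ k ∈ K, (∀ l, l ∉ K → l ≠ l₀ → l ≠ l₁ → k ≠ p l) → f k < 0 := by
        intro k hk hkp
        have h1 := hV.expand (K := Kᶜ) (e := g) hL (fun l hl => hg.mem l (by simpa using hl))
          (fun l hl j hj hjl => hg.zero l (by simpa using hl) j (by simpa using hj) hjl)
          (fun l hl => by rw [hg.one l (by simpa using hl)]; exact one_ne_zero) hfV k
        rw [h1, ← Finset.add_sum_erase Kᶜ _ (show l₀ ∈ Kᶜ by simpa using hl₀),
          ← Finset.add_sum_erase (Kᶜ.erase l₀) _ (show l₁ ∈ Kᶜ.erase l₀ by simp [hl01.symm, hl₁]),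
          hf0, hf1, zero_div, zero_mul, zero_div, zero_mul, zero_add, zero_add]
        refine Finset.sum_neg (fun l hl => ?_) hL'
        simp only [Finset.mem_erase, Finset.mem_compl] at hl
        rw [hg.one l hl.2.2, div_one]
        exact mul_neg_of_pos_of_neg (hfL l hl.2.2 hl.2.1 hl.1)
          (hneg l hl.2.2 k hk (hkp l hl.2.2 hl.2.1 hl.1))
      have hfp : f (p l₀) < 0 := hfneg _ hp₀.1 fun l hl h0 _ h => h0 (hinj l hl l₀ hl₀ h.symm)
      have hfm : f m < 0 := hfneg _ hmK fun l hl _ h1 h =>
        h1 (hinj l hl l₁ hl₁ (by rw [hpl₁]; exact h.symm))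
      refine perturb (f := f) (w := g l₁ - g l₀) hfV
        (V.sub_mem (hg.mem l₁ hl₁) (hg.mem l₀ hl₀)) ?_
      intro i
      have hml₀ : m ≠ l₀ := fun h => hl₀ (h ▸ hmK)
      have hml₁ : m ≠ l₁ := fun h => hl₁ (h ▸ hmK)
      by_cases hi : i ∈ K
      · left
        have hil : i ≠ l₀ := fun h => hl₀ (h ▸ hi)
        by_cases him : i = m
        · rw [him, flp_self, hs3 m hml₀ hm]
          linarith
        · rw [flp_ne _ him]
          by_cases hip : i = p l₀
          · rw [hip, hs2]
            linarith
          · rw [hs3 i hil hip, one_mul]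
            exact hfK i hi hip him
      · have him : i ≠ m := fun h => hi (h ▸ hmK)
        have hip : i ≠ p l₀ := fun h => hi (h ▸ hp₀.1)
        rw [flp_ne _ him]
        by_cases hil : i = l₀
        · right
          rw [hil, hs1, Pi.sub_apply, hg.zero l₁ hl₁ l₀ hl₀ hl01, hg.one l₀ hl₀]
          exact ⟨hf0, by norm_num⟩
        · rw [hs3 i hil hip]
          by_cases hil1 : i = l₁
          · right
            rw [hil1, Pi.sub_apply, hg.zero l₀ hl₀ l₁ hl₁ hl01.symm, hg.one l₁ hl₁]
            exact ⟨hf1, by norm_num⟩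
          · left
            rw [one_mul]
            exact hfL i hi hil hil1
    · by_cases hml : m = l₀
      · -- the flip at `l₀`
        rw [hml]
        have hP : (K.erase (p l₀)).Nonempty := by
          rw [← Finset.card_pos, Finset.card_erase_of_mem hp₀.1, hu.card]
          omega
        refine perturb (f := ∑ k ∈ K.erase (p l₀), u k) (w := - u (p l₀)) ?_
          (V.neg_mem (hu.mem _ hp₀.1)) ?_
        · refine V.sum_mem fun k hk => hu.mem k ?_
          simp only [Finset.mem_erase] at hk
          exact hk.2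
        intro i
        rw [Finset.sum_apply]
        by_cases hi : i ∈ K
        · have hil : i ≠ l₀ := fun h => hl₀ (h ▸ hi)
          rw [flp_ne _ hil]
          by_cases hip : i = p l₀
          · right
            rw [hip, hs2]
            refine ⟨?_, ?_⟩
            · refine Finset.sum_eq_zero fun k hk => ?_
              simp only [Finset.mem_erase] at hk
              exact hu.zero k hk.2 _ hp₀.1 (Ne.symm hk.1)
            · rw [Pi.neg_apply]
              have := hu.pos _ hp₀.1
              linarith
          · left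
            rw [hs3 i hil hip, one_mul, Finset.sum_eq_single i]
            · exact hu.pos i hi
            · intro k hk hki
              simp only [Finset.mem_erase] at hk
              exact hu.zero k hk.2 i hi (Ne.symm hki)
            · intro h'
              exact absurd (by simp [hip, hi]) h'
        · left
          have h1 : flp s l₀ i = 1 := by
            by_cases hil : i = l₀
            · rw [hil, flp_self, hs1]; norm_num
            · rw [flp_ne _ hil, hs3 i hil (fun h => hi (h ▸ hp₀.1))]
          rw [h1, one_mul]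
          refine Finset.sum_pos (fun k hk => ?_) hP
          simp only [Finset.mem_erase] at hk
          exact hu.out k hk.2 i hi
      · refine perturb (f := - g l₀) (w := w - (2 : ℝ) • g m) (V.neg_mem (hg.mem l₀ hl₀))
          (V.sub_mem hwV (V.smul_mem _ (hg.mem m hmK))) ?_
        intro i
        by_cases hi : i ∈ K
        · left
          have him : i ≠ m := fun h => hmK (h ▸ hi)
          rw [flp_ne _ him]
          by_cases hip : i = p l₀
          · rw [hip, hs2, Pi.neg_apply]
            linarith [hp₀.2]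
          · rw [hs3 i (fun h => hl₀ (h ▸ hi)) hip, Pi.neg_apply]
            linarith [hneg l₀ hl₀ i hi hip]
        · by_cases hil : i = l₀
          · left
            rw [hil, flp_ne _ (Ne.symm hml), hs1, Pi.neg_apply, hg.one l₀ hl₀]
            norm_num
          · right
            have hip : i ≠ p l₀ := fun h => hi (h ▸ hp₀.1)
            refine ⟨by rw [Pi.neg_apply, hg.zero l₀ hl₀ i hi hil, neg_zero], ?_⟩
            rw [Pi.sub_apply, Pi.smul_apply, smul_eq_mul, hw i hi hil]
            by_cases him : i = m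
            · rw [him, flp_self, hs3 m hml (by rw [← him]; exact hip), hg.one m hmK]
              norm_num
            · rw [flp_ne _ him, hs3 i hil hip, hg.zero m hmK i hi him]
              norm_num

/-- Simplicial cells exist. -/
theorem exists_simplex {r : ℕ} (hr : 2 ≤ r) (hn : r + 1 ≤ Fintype.card ι)
    {V : Submodule ℝ (ι → ℝ)} (hV : Unif r V) :
    ∃ (K : Finset ι) (u : ι → ι → ℝ) (ρ : ι → ℝ), K.card = r ∧ (∀ i, ρ i = 1 ∨ ρ i = -1) ∧
      (∀ k ∈ K, u k ∈ V) ∧ (∀ k ∈ K, ∀ j ∈ K, j ≠ k → u k j = 0) ∧
      (∀ k ∈ K, 0 < ρ k * u k k) ∧ (∀ k ∈ K, ∀ l, l ∉ K → 0 < ρ l * u k l) := by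
  classical
  -- two elements
  obtain ⟨e, h, heh⟩ : ∃ e h : ι, e ≠ h := by
    have : 1 < Fintype.card ι := by omega
    exact Fintype.exists_pair_of_one_lt_card this
  let C : Finset (Finset ι) := Finset.powersetCard (r - 1) ((univ.erase e).erase h)
  have hC : C.Nonempty := by
    refine Finset.powersetCard_nonempty.2 ?_
    rw [Finset.card_erase_of_mem (Finset.mem_erase.2 ⟨heh.symm, mem_univ _⟩),
      Finset.card_erase_of_mem (mem_univ _), Finset.card_univ]
    omega
  have hCm : ∀ G, G ∈ C ↔ (e ∉ G ∧ h ∉ G ∧ G.card + 1 = r) := by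
    intro G
    simp only [C, Finset.mem_powersetCard]
    constructor
    · rintro ⟨h1, h2⟩
      refine ⟨fun h' => ?_, fun h' => ?_, by omega⟩
      · have := h1 h'; simp at this
      · have := h1 h'; simp at this
    · rintro ⟨h1, h2, h3⟩
      refine ⟨fun i hi => ?_, by omega⟩
      simp only [Finset.mem_erase, Finset.mem_univ, and_true]
      exact ⟨fun h' => h2 (h' ▸ hi), fun h' => h1 (h' ▸ hi)⟩
  -- the vectors `v G`
  have hex : ∀ G : Finset ι, ∃ f ∈ V, (e ∉ G → G.card + 1 = r → (f e = 1 ∧ ∀ i ∈ G, f i = 0)) := by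
    intro G
    by_cases hG : e ∉ G ∧ G.card + 1 = r
    · obtain ⟨f, hf, hf'⟩ := hV.ex (insert e G) (by
        rw [Finset.card_insert_of_notMem hG.1]; exact hG.2) fun i => if i = e then 1 else 0
      refine ⟨f, hf, fun _ _ => ⟨?_, fun i hi => ?_⟩⟩
      · rw [hf' e (Finset.mem_insert_self _ _), if_pos rfl]
      · have hie : i ≠ e := fun h' => hG.1 (h' ▸ hi)
        rw [hf' i (Finset.mem_insert_of_mem hi), if_neg hie]
    · exact ⟨0, V.zero_mem, fun h1 h2 => absurd ⟨h1, h2⟩ hG⟩
  choose v hvV hv using hex
  have hvu : ∀ G : Finset ι, e ∉ G → G.card + 1 = r → ∀ f ∈ V, f e = 1 → (∀ i ∈ G, f i = 0) →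
      f = v G := by
    intro G h1 h2 f hf hfe hf0
    have h3 := hv G h1 h2
    have : f - v G = 0 := by
      refine hV.uq (insert e G) (by rw [Finset.card_insert_of_notMem h1]; exact h2) _
        (V.sub_mem hf (hvV G)) ?_
      intro i hi
      rcases Finset.mem_insert.1 hi with rfl | hi
      · rw [Pi.sub_apply, hfe, h3.1, sub_self]
      · rw [Pi.sub_apply, hf0 i hi, h3.2 i hi, sub_self]
    exact sub_eq_zero.1 this
  have hv0 : ∀ G : Finset ι, e ∉ G → G.card + 1 = r → ∀ i, i ∉ G → v G i ≠ 0 := by
    intro G h1 h2 i hi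
    have h3 := hv G h1 h2
    refine hV.ne_zero h2 (hvV G) h3.2 ?_ hi
    intro h'
    have := congrFun h' e
    rw [h3.1] at this
    exact one_ne_zero this
  obtain ⟨G, hG, hmin⟩ := Finset.exists_min_image C (fun G => |v G h|) hC
  obtain ⟨heG, hhG, hGc⟩ := (hCm G).1 hG
  let K : Finset ι := insert h G
  have hKc : K.card = r := by
    rw [Finset.card_insert_of_notMem hhG]; exact hGc
  have heK : e ∉ K := by
    intro h'
    rcases Finset.mem_insert.1 h' with h' | h'
    · exact heh h'
    · exact heG h'
  have hKe : ∀ k ∈ K, e ∉ K.erase k := fun k _ h' => heK (Finset.mem_of_mem_erase h')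
  have hKcard : ∀ k ∈ K, (K.erase k).card + 1 = r := by
    intro k hk
    rw [Finset.card_erase_of_mem hk, hKc]
    omega
  have hKh : K.erase h = G := by
    simp only [K]
    exact Finset.erase_insert hhG
  let u : ι → ι → ℝ := fun k => v (K.erase k)
  have huh : u h = v G := by simp only [u, hKh]
  have hue : ∀ k ∈ K, u k e = 1 := fun k hk => (hv _ (hKe k hk) (hKcard k hk)).1
  have hu0 : ∀ k ∈ K, ∀ j ∈ K, j ≠ k → u k j = 0 := fun k hk j hj hjk =>
    (hv _ (hKe k hk) (hKcard k hk)).2 j (Finset.mem_erase.2 ⟨hjk, hj⟩)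
  have hun : ∀ k ∈ K, ∀ j, j ∉ K.erase k → u k j ≠ 0 := fun k hk j hj =>
    hv0 _ (hKe k hk) (hKcard k hk) j hj
  have hhK : h ∈ K := Finset.mem_insert_self _ _
  -- the key claim
  have key : ∀ k ∈ K, ∀ l, l ∉ K → 0 < u h l * u k l := by
    intro k hk l hl
    by_cases hkh : k = h
    · rw [hkh]
      refine mul_self_pos.2 (hun h hhK l ?_)
      exact fun h' => hl (Finset.mem_of_mem_erase h')
    by_cases hle : l = e
    · rw [hle, hue h hhK, hue k hk]
      norm_num
    have hkG : k ∈ G := by
      rcases Finset.mem_insert.1 hk with h' | h'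
      · exact absurd h' hkh
      · exact h'
    by_contra hcon
    have hlt : u h l * u k l < 0 := by
      refine lt_of_le_of_ne (not_lt.1 hcon) ?_
      exact mul_ne_zero (hun h hhK l fun h' => hl (Finset.mem_of_mem_erase h'))
        (hun k hk l fun h' => hl (Finset.mem_of_mem_erase h'))
    have hd : u h l - u k l ≠ 0 := by
      intro h'
      have : u h l = u k l := by linarith
      rw [this] at hlt
      exact absurd hlt (not_lt.2 (mul_self_nonneg _))
    let t : ℝ := u h l / (u h l - u k l)
    have ht0 : 0 < t := by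
      have h1 : t = (u h l * (u h l - u k l)) / ((u h l - u k l) * (u h l - u k l)) := by
        simp only [t]
        field_simp
      rw [h1]
      refine div_pos ?_ (mul_self_pos.2 hd)
      nlinarith [mul_self_nonneg (u h l)]
    have ht1 : 0 < 1 - t := by
      have h1 : 1 - t = (- u k l * (u h l - u k l)) / ((u h l - u k l) * (u h l - u k l)) := by
        simp only [t]
        field_simp
        ring
      rw [h1]
      refine div_pos ?_ (mul_self_pos.2 hd)
      nlinarith [mul_self_nonneg (u k l)]
    let q : ι → ℝ := (1 - t) • u h + t • u k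
    have hqV : q ∈ V := V.add_mem (V.smul_mem _ (hvV _)) (V.smul_mem _ (hvV _))
    have hq : ∀ i, q i = (1 - t) * u h i + t * u k i := fun i => by simp [q]
    have hql : q l = 0 := by
      rw [hq]
      simp only [t]
      field_simp
      ring
    have hqe : q e = 1 := by
      rw [hq, hue h hhK, hue k hk]
      ring
    have hlG : l ∉ G.erase k := fun h' => hl (Finset.mem_insert_of_mem (Finset.mem_of_mem_erase h'))
    have hG'c : (insert l (G.erase k)).card + 1 = r := by
      rw [Finset.card_insert_of_notMem hlG, Finset.card_erase_of_mem hkG]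
      have : 0 < G.card := Finset.card_pos.2 ⟨k, hkG⟩
      omega
    have heG' : e ∉ insert l (G.erase k) := by
      intro h'
      rcases Finset.mem_insert.1 h' with h' | h'
      · exact hle h'.symm
      · exact heG (Finset.mem_of_mem_erase h')
    have hhG' : h ∉ insert l (G.erase k) := by
      intro h'
      rcases Finset.mem_insert.1 h' with h' | h'
      · exact hl (h' ▸ hhK)
      · exact hhG (Finset.mem_of_mem_erase h')
    have hq0 : ∀ i ∈ insert l (G.erase k), q i = 0 := by
      intro i hi
      rcases Finset.mem_insert.1 hi with rfl | hi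
      · exact hql
      · have hik := (Finset.mem_erase.1 hi).1
        have hiG := (Finset.mem_erase.1 hi).2
        have hiK : i ∈ K := Finset.mem_insert_of_mem hiG
        have hih : i ≠ h := fun h' => hhG (h' ▸ hiG)
        rw [hq, hu0 h hhK i hiK hih, hu0 k hk i hiK hik]
        ring
    have hqv := hvu _ heG' hG'c q hqV hqe hq0
    have hm := hmin _ ((hCm _).2 ⟨heG', hhG', hG'c⟩)
    rw [← hqv, ← huh, hq, hu0 k hk h hhK (Ne.symm hkh), mul_zero, add_zero, abs_mul,
      abs_of_pos ht1] at hm
    have h1 : 0 < |u h h| := abs_pos.2 (hun h hhK h (by simp))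
    nlinarith
  refine ⟨K, u, fun i => if i ∈ K then (if 0 < u i i then 1 else -1) else
    (if 0 < u h i then 1 else -1), hKc, ?_, fun k hk => hvV _, hu0, ?_, ?_⟩
  · intro i
    by_cases hi : i ∈ K
    · by_cases h1 : 0 < u i i
      · left; simp [hi, h1]
      · right; simp [hi, h1]
    · by_cases h1 : 0 < u h i
      · left; simp [hi, h1]
      · right; simp [hi, h1]
  · intro k hk
    simp only [hk, if_true]
    have h1 : u k k ≠ 0 := hun k hk k (by simp)
    split_ifs with h2
    · linarith
    · have : u k k < 0 := lt_of_le_of_ne (not_lt.1 h2) h1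
      linarith
  · intro k hk l hl
    simp only [hl, if_false]
    have h1 := key k hk l hl
    split_ifs with h2
    · rw [one_mul]
      exact (mul_pos_iff_of_pos_left h2).1 h1
    · have h3 : u h l ≠ 0 := hun h hhK l fun h' => hl (Finset.mem_of_mem_erase h')
      have h4 : u h l < 0 := lt_of_le_of_ne (not_lt.1 h2) h3
      have h5 : u k l < 0 := by
        by_contra h6
        push Not at h6
        have := mul_nonpos_of_nonpos_of_nonneg h4.le h6
        linarith
      linarith

/-- The abstract theorem. -/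
theorem near {r : ℕ} (hr : 3 ≤ r) (hn : Fintype.card ι = 2 * r) {V : Submodule ℝ (ι → ℝ)}
    (hV : Unif r V) : Near V := by
  classical
  obtain ⟨K, u, ρ, hKc, hρ, huV, hu0, huk, hul⟩ := exists_simplex (by omega) (by omega) hV
  have hρ2 : ∀ i, ρ i * ρ i = 1 := by
    intro i
    rcases hρ i with h | h <;> rw [h] <;> norm_num
  -- the reoriented space
  let D : (ι → ℝ) →ₗ[ℝ] (ι → ℝ) := LinearMap.pi fun i => ρ i • LinearMap.proj i
  have hD : ∀ (f : ι → ℝ) (i : ι), D f i = ρ i * f i := fun f i => by simp [D]
  have hDD : ∀ f : ι → ℝ, D (D f) = f := by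
    intro f
    funext i
    rw [hD, hD, ← mul_assoc, hρ2, one_mul]
  let V' : Submodule ℝ (ι → ℝ) := V.comap D
  have hmem : ∀ f, f ∈ V → D f ∈ V' := by
    intro f hf
    show D (D f) ∈ V
    rw [hDD]
    exact hf
  have hV' : Unif r V' := by
    constructor
    · intro K hK t
      obtain ⟨f, hf, hft⟩ := hV.ex K hK (D t)
      refine ⟨D f, hmem f hf, fun i hi => ?_⟩
      rw [hD, hft i hi, hD, ← mul_assoc, hρ2, one_mul]
    · intro K hK f hf h0
      have h1 : D f = 0 := hV.uq K hK (D f) hf fun i hi => by rw [hD, h0 i hi, mul_zero]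
      rw [← hDD f, h1, map_zero]
  have hchart : Chart r V' K (fun k => D (u k)) := by
    refine ⟨hKc, fun k hk => hmem _ (huV k hk), ?_, ?_, ?_⟩
    · intro k hk j hj hjk
      rw [hD, hu0 k hk j hj hjk, mul_zero]
    · intro k hk
      rw [hD]
      exact huk k hk
    · intro k hk l hl
      rw [hD]
      exact hul k hk l hl
  have hL : Kᶜ.card = r := by
    rw [Finset.card_compl, hn, hKc]
    omega
  obtain ⟨g, hg⟩ := exists_dual hV' hL
  have hnear : Near V' := by
    by_cases hA : ∃ l, l ∉ K ∧ ∃ x ∈ K, ∃ a ∈ K, x ≠ a ∧ 0 < g l x ∧ 0 < g l a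
    · obtain ⟨l, hl, x, hx, a, ha, hxa, h1, h2⟩ := hA
      exact caseA hV' hL hchart hg hl hx ha hxa h1 h2
    · push Not at hA
      exact caseB hr hV' hL hchart hg fun l hl x hx a ha hxa h1 h2 =>
        absurd h2 (not_lt.2 (hA l hl x hx a ha hxa h1))
  obtain ⟨b, s, hs, hm⟩ := hnear
  have tr : ∀ s' s'' : ι → ℝ, (∀ i, s'' i = ρ i * s' i) → Rls V' s' → Rls V s'' := by
    rintro s' s'' h ⟨f, hf, hfs⟩
    refine ⟨D f, hf, fun i => ?_⟩
    rw [hD, h, show ρ i * s' i * (ρ i * f i) = (ρ i * ρ i) * (s' i * f i) by ring, hρ2, one_mul]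
    exact hfs i
  refine ⟨b, fun i => ρ i * s i, tr s _ (fun i => rfl) hs, fun m hmb => ?_⟩
  refine tr (flp s m) _ (fun i => ?_) (hm m hmb)
  by_cases him : i = m
  · simp [flp, him]
  · simp [flp, him]

end Pool.Agent.H97.Mcm
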